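import Pool.Agent.H34.WeakP

namespace Pool.Agent.Results.MP_55c7a7_lc.FreeSemigroup
open Pool.Agent.H34.WeakP

theorem result (A : Set (Ultrafilter ℕ)) (hA : ∀ u ∈ A, WeakP u)
    (hI : ∀ u ∈ A, ∀ v ∈ A, u ≠ v → ¬ RK u v) (a b : Ultrafilter ℕ) (l m : List (Ultrafilter ℕ))
    (ha : ∀ c ∈ a :: l, c ∈ A) (hb : ∀ c ∈ b :: m, c ∈ A) (h : Iso (prod a l) (prod b m)) :
    a :: l = b :: m :=
  main hA hI l m a b ha hb h

end Pool.Agent.Results.MP_55c7a7_lc.FreeSemigroup
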